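import Pool.Agent.Helper240.ZU.A1

open Complex MeasureTheory Set

namespace Pool.Agent.H812R4.ZM

theorem sum_le (N : ℕ) : ∑ n ∈ Finset.Icc 1 N, (n : ℝ) ^ (-(1 / 2) : ℝ) ≤ 2 * √N := by
  induction N with
  | zero => simp
  | succ N ih =>
    rw [Finset.sum_Icc_succ_top (by omega)]
    have h1 : (((N + 1 : ℕ) : ℝ)) ^ (-(1 / 2) : ℝ) = 1 / √((N + 1 : ℕ) : ℝ) := by
      rw [Real.rpow_neg (by positivity), ← Real.sqrt_eq_rpow, one_div]
    rw [h1]
    have hN1 : (0 : ℝ) < ((N + 1 : ℕ) : ℝ) := by positivity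
    have hs1 : 0 < √((N + 1 : ℕ) : ℝ) := Real.sqrt_pos.mpr hN1
    have hs0 : 0 ≤ √(N : ℝ) := Real.sqrt_nonneg _
    have e1 : √((N + 1 : ℕ) : ℝ) ^ 2 = N + 1 := by rw [Real.sq_sqrt hN1.le]; push_cast; ring
    have e0 : √(N : ℝ) ^ 2 = N := Real.sq_sqrt (by positivity)
    have hle : √(N : ℝ) ≤ √((N + 1 : ℕ) : ℝ) := Real.sqrt_le_sqrt (by push_cast; linarith)
    have h2 : 1 / √((N + 1 : ℕ) : ℝ) ≤ 2 * (√((N + 1 : ℕ) : ℝ) - √(N : ℝ)) := by
      rw [div_le_iff₀ hs1]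
      nlinarith
    linarith

theorem tail_int {N : ℕ} (hN : 1 ≤ N) {s : ℂ} (hs : 0 < s.re) :
    ‖∫ u in Ioi (N : ℝ), ((Int.fract u : ℝ) : ℂ) * (u : ℂ) ^ (-s - 1)‖ ≤
      (N : ℝ) ^ (-s.re) / s.re := by
  have hN0 : (0 : ℝ) < N := by exact_mod_cast hN
  have h1 : ∫ u in Ioi (N : ℝ), (u : ℝ) ^ (-s.re - 1) = (N : ℝ) ^ (-s.re) / s.re := by
    rw [integral_Ioi_rpow_of_lt (by linarith) hN0]
    have h3 : -s.re - 1 + 1 = -s.re := by ring
    rw [h3, neg_div_neg_eq]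
  rw [← h1]
  apply norm_integral_le_of_norm_le
  · exact integrableOn_Ioi_rpow_of_lt (by linarith) hN0
  · rw [ae_restrict_iff' measurableSet_Ioi]
    refine Filter.Eventually.of_forall (fun u hu => ?_)
    have hu0 : (0:ℝ) < u := lt_trans hN0 hu
    rw [norm_mul, Complex.norm_real, Real.norm_eq_abs, Int.abs_fract,
      Complex.norm_cpow_eq_rpow_re_of_pos hu0]
    have h3 : (-s - 1).re = -s.re - 1 := by simp
    rw [h3]
    calc Int.fract u * u ^ (-s.re - 1) ≤ 1 * u ^ (-s.re - 1) := by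
          apply mul_le_mul_of_nonneg_right (Int.fract_lt_one u).le
          positivity
      _ = u ^ (-s.re - 1) := one_mul _

theorem zeta_le (T t : ℝ) (hT : 1000 < T) (h0 : 0 ≤ t) (h1 : t ≤ T) :
    ‖riemannZeta (1 / 2 + t * I)‖ ≤ 7 * √T := by
  set N := ⌊T⌋₊ with hN
  set s : ℂ := 1 / 2 + t * I with hs
  have hre : s.re = 1 / 2 := by simp [hs]
  have him : s.im = t := by simp [hs]
  have hN1 : 1 ≤ N := by
    rw [hN, Nat.one_le_floor_iff]; linarith
  have hN0 : (0 : ℝ) < N := by exact_mod_cast hN1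
  have hNle : (N : ℝ) ≤ T := Nat.floor_le (by linarith)
  have hNge : T - 1 ≤ N := by
    have := Nat.lt_floor_add_one T
    rw [← hN] at this
    linarith
  have hs1 : s ≠ 1 := by
    intro h; rw [h] at hre; norm_num at hre
  have h := ZU.J_a1.zeta_formula N hN1 s (by rw [hre]; norm_num) hs1
  rw [h]
  have a1 : ‖ZU.DN N s‖ ≤ 2 * √T := by
    unfold ZU.DN
    refine (norm_sum_le _ _).trans ?_
    have : ∀ n ∈ Finset.Icc 1 N, ‖(n : ℂ) ^ (-s)‖ = (n : ℝ) ^ (-(1 / 2) : ℝ) := by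
      intro n hn
      rw [Finset.mem_Icc] at hn
      rw [Complex.norm_natCast_cpow_of_pos (by omega)]
      congr 1
      rw [Complex.neg_re, hre]
    rw [Finset.sum_congr rfl this]
    refine (sum_le N).trans ?_
    have := Real.sqrt_le_sqrt hNle
    linarith
  have a2 : ‖(N : ℂ) ^ (1 - s) / (s - 1)‖ ≤ 2 * √T := by
    rw [norm_div]
    have e2 : ‖(N : ℂ) ^ (1 - s)‖ = √(N : ℝ) := by
      rw [Complex.norm_natCast_cpow_of_pos (by omega), Real.sqrt_eq_rpow]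
      congr 1
      rw [Complex.sub_re, hre, Complex.one_re]
      norm_num
    have e3 : 1 / 2 ≤ ‖s - 1‖ := by
      have := Complex.abs_re_le_norm (s - 1)
      rw [Complex.sub_re, hre, Complex.one_re] at this
      norm_num at this
      linarith
    rw [e2, div_le_iff₀ (by linarith)]
    have := Real.sqrt_le_sqrt hNle
    have h5 : 0 ≤ √T := Real.sqrt_nonneg _
    nlinarith
  have a3 : ‖s * ∫ u in Ioi (N : ℝ), ((Int.fract u : ℝ) : ℂ) * (u : ℂ) ^ (-s - 1)‖ ≤ 3 * √T := by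
    rw [norm_mul]
    have b1 : ‖s‖ ≤ 1 / 2 + T := by
      have := Complex.norm_le_abs_re_add_abs_im s
      rw [hre, him, abs_of_nonneg h0] at this
      have h2 : |(1 / 2 : ℝ)| = 1 / 2 := by norm_num
      linarith
    have b2 := tail_int hN1 (s := s) (by rw [hre]; norm_num)
    rw [hre] at b2
    have b3 : (N : ℝ) ^ (-(1 / 2) : ℝ) / (1 / 2) = 2 / √(N : ℝ) := by
      rw [Real.rpow_neg hN0.le, ← Real.sqrt_eq_rpow]
      field_simp
    rw [b3] at b2
    have hsN : 0 < √(N : ℝ) := Real.sqrt_pos.mpr hN0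
    have hsT : 0 < √T := Real.sqrt_pos.mpr (by linarith)
    have hT2 : √T ^ 2 = T := Real.sq_sqrt (by linarith)
    have hN2 : √(N : ℝ) ^ 2 = N := Real.sq_sqrt hN0.le
    have b4 : 9 / 10 * √T ≤ √(N : ℝ) := by
      apply Real.le_sqrt_of_sq_le
      rw [mul_pow, hT2]
      nlinarith
    calc ‖s‖ * ‖∫ u in Ioi (N : ℝ), ((Int.fract u : ℝ) : ℂ) * (u : ℂ) ^ (-s - 1)‖
        ≤ (1 / 2 + T) * (2 / √(N : ℝ)) := by
          apply mul_le_mul b1 b2 (norm_nonneg _) (by linarith)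
      _ ≤ 3 * √T := by
          rw [mul_div_assoc', div_le_iff₀ hsN]
          nlinarith
  calc ‖ZU.DN N s + (N : ℂ) ^ (1 - s) / (s - 1) -
      s * ∫ u in Ioi (N : ℝ), ((Int.fract u : ℝ) : ℂ) * (u : ℂ) ^ (-s - 1)‖
      ≤ ‖ZU.DN N s‖ + ‖(N : ℂ) ^ (1 - s) / (s - 1)‖ +
        ‖s * ∫ u in Ioi (N : ℝ), ((Int.fract u : ℝ) : ℂ) * (u : ℂ) ^ (-s - 1)‖ :=
        (norm_sub_le _ _).trans (add_le_add_left (norm_add_le _ _) _)
    _ ≤ 7 * √T := by linarith

theorem main (T k : ℝ) (hT : 1000 < T) (hk : 0 < k)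
    (hkT : Real.log (49 * T) ≤ k * Real.log (Real.log T)) :
    ∫ t in (0 : ℝ)..T, ‖riemannZeta (1 / 2 + t * I)‖ ^ (2 * k) ≤ T * Real.log T ^ (k ^ 2) := by
  have hT0 : 0 < T := by linarith
  have hlog : 1 < Real.log T := by
    rw [Real.lt_log_iff_exp_lt hT0]
    have := Real.exp_one_lt_d9
    linarith
  have hb : ∀ t ∈ uIoc (0 : ℝ) T, ‖‖riemannZeta (1 / 2 + t * I)‖ ^ (2 * k)‖ ≤
      Real.log T ^ (k ^ 2) := by
    intro t ht
    rw [uIoc_of_le hT0.le] at ht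
    have h1 := zeta_le T t hT ht.1.le ht.2
    rw [Real.norm_of_nonneg (Real.rpow_nonneg (norm_nonneg _) _)]
    calc ‖riemannZeta (1 / 2 + t * I)‖ ^ (2 * k) ≤ (7 * √T) ^ (2 * k) :=
          Real.rpow_le_rpow (norm_nonneg _) h1 (by linarith)
      _ = (49 * T) ^ k := by
          rw [Real.rpow_mul (by positivity)]
          congr 1
          rw [Real.rpow_two, mul_pow, Real.sq_sqrt hT0.le]
          norm_num
      _ = Real.exp (Real.log (49 * T) * k) := by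
          rw [Real.rpow_def_of_pos (by positivity)]
      _ ≤ Real.exp (Real.log (Real.log T) * k ^ 2) := by
          apply Real.exp_le_exp.mpr
          nlinarith
      _ = Real.log T ^ (k ^ 2) := by
          rw [Real.rpow_def_of_pos (by linarith)]
  have h := intervalIntegral.norm_integral_le_of_norm_le_const hb
  rw [sub_zero, abs_of_pos hT0] at h
  calc _ ≤ ‖∫ t in (0 : ℝ)..T, ‖riemannZeta (1 / 2 + t * I)‖ ^ (2 * k)‖ := Real.le_norm_self _
    _ ≤ Real.log T ^ (k ^ 2) * T := h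
    _ = _ := mul_comm _ _

end Pool.Agent.H812R4.ZM
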